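import Pool.Agent.H94.TQ.Z

/-!
Axially symmetric Navier-Stokes flows: a criterion at one scale, with the power 3/4 of the logarithm of the size of the flow.

`Γ = r u_θ` is the circulation. There is an absolute constant `c > 0` such that the solution does not blow up if, for one
radius `r`, `|Γ| ≤ c / log (2 + K) ^ (3/4)` at distance less than `r` from the axis. Here `K r` bounds the energy, or only the energy and the
dissipation of the balls of radius `r` centred on the axis, and `K` bounds the (scaled) vorticity and swirl at the initial time.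

Idea of the proof, at `r = 1`, with `y = r² / 2`. Let `Z = ∂_z (u_θ / r)`, `O = ω_θ / r`, and let `S` be the number of scales between the axis
and `r`; it is logarithmic, since a barrier gives `|Γ| ≤ ε min (1, κ r)` with `κ` a power of `K`. Besides `∫ Z²` one uses two functionals invariant
under uniform strain, whose rates contain the velocity only through differences: the two-point functional
`∫∫ θ |h|^(θ - 3) y^θ (V (z + h) - V (z))² dh dx`, `V = u_θ / r`, `θ = 1 / S`, whose dissipation contains `θ ∫ Z² / y`; and `∫ O² / 2 - δ Ψ`, where `Ψ` is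
an average, over the thresholds `c = m μ / y`, of the Moreau envelopes `inf_g (‖f - g‖² / 2 + c TV (g))` of the functions `f = O (y, ·)` of `z`. The source
`∂_z (Γ² / 4 y²)` of `O` is the derivative of a function of size `ε² / y²`, so it is controlled by these envelopes and `Z² / y`.
-/

set_option autoImplicit false

open Set Filter Topology MeasureTheory
open scoped ContDiff
open Pool.Agent.H16 Pool.Agent.H87.NS Pool.Agent.H72.CC Pool.Agent.H16.TU

namespace Pool.Agent.Results.MP_09540e_an.CirculationThreeQuarters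

/-- The energy of `v`. -/
noncomputable def energy (v : E3 → E3) : ℝ := ∫ x, ‖v x‖ ^ 2

/-- The energy of `v` in the ball of radius `r` around the point `(0, 0, z)` of the axis. -/
noncomputable def ballEnergy (v : E3 → E3) (z r : ℝ) : ℝ := ∫ x in Metric.ball (axp z) r, ‖v x‖ ^ 2

/-- The dissipation of `v` in that ball. -/
noncomputable def ballDissipation (v : E3 → E3) (z r : ℝ) : ℝ := ∫ x in Metric.ball (axp z) r, gv v x

/-- The entry `∂ v_j / ∂ x_i - ∂ v_i / ∂ x_j` of the vorticity. -/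
noncomputable def vor (v : E3 → E3) (i j : Fin 3) (x : E3) : ℝ := pd i (fun y => v y j) x - pd j (fun y => v y i) x

/-- The horizontal vorticity in that ball: the integral of `(ω_r² + ω_θ²) / R²`. -/
noncomputable def ballVorticity (v : E3 → E3) (z r : ℝ) : ℝ :=
  ∫ x in Metric.ball (axp z) r, (vor v 1 2 x ^ 2 + vor v 2 0 x ^ 2) / rsq x

theorem ballVorticity_eq {v : E3 → E3} (hv : AxF v) (z r : ℝ) :
    ∫ x in Metric.ball (axp z) r, (curl v x 0 ^ 2 + curl v x 1 ^ 2) / rsq x = ballVorticity v z r := by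
  have h0 : ∀ x, curl v x 0 = vor v 1 2 x := fun x => by
    show fderiv ℝ v x (e 1) 2 - fderiv ℝ v x (e 2) 1 = _
    rw [vor, pd_comp hv.smooth, pd_comp hv.smooth]
  have h1 : ∀ x, curl v x 1 = vor v 2 0 x := fun x => by
    show fderiv ℝ v x (e 2) 0 - fderiv ℝ v x (e 0) 2 = _
    rw [vor, pd_comp hv.smooth, pd_comp hv.smooth]
  simp only [ballVorticity, h0, h1]

/-- **Circulation small against the power 3/4 of the logarithm of the size of the flow at one scale.** -/
theorem result : ∃ c : ℝ, 0 < c ∧ ∀ (T : ℝ) (u : ℝ → E3 → E3) (p : ℝ → E3 → ℝ), IsHInfAxisymNS T u p → ∀ t₀ r K : ℝ,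
    0 ≤ t₀ → t₀ < T → 0 < r → 0 ≤ K →
    (∀ t ∈ Ico t₀ T, ∀ x, rad x < r → |circ (u t) x| ≤ c / Real.log (2 + K) ^ (3 / 4 : ℝ)) →
    (energy (u 0) ≤ K * r ∨
      (∀ t ∈ Ico t₀ T, ∀ z, ballEnergy (u t) z r ≤ K * r) ∧
      (∀ s t : ℝ, t₀ ≤ s → s ≤ t → t < T → t ≤ s + r ^ 2 → ∀ z, ∫ τ in s..t, ballDissipation (u τ) z r ≤ K * r)) →
    (∀ x, rad x < r → |circ (u t₀) x| ≤ K * (rad x / r) ^ 2) →
    (∀ z, ballVorticity (u t₀) z r ≤ K / r ^ 3) →
    ∃ C : ℝ, ∀ t ∈ Ico t₀ T, ∀ x, rad x < r → |circ (u t) x| ≤ C * rad x := by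
  obtain ⟨c, hc, hm⟩ := Pool.Agent.H94.TQ.twoTQ
  refine ⟨c, hc, fun T u p h t₀ r K h0 hT hr hK h1 h2 h3 h4 => hm T u p h t₀ r K h0 hT hr hK h1 h2 h3 fun z => ?_⟩
  rw [ballVorticity_eq (Pool.Agent.H37.EP.vs_of h ⟨h0, hT⟩).ax]
  exact h4 z

/-- **Data with small circulation**: a condition on the initial velocity alone. -/
theorem data : ∃ c : ℝ, 0 < c ∧ ∀ (T : ℝ) (u : ℝ → E3 → E3) (p : ℝ → E3 → ℝ), IsHInfAxisymNS T u p → ∀ r K : ℝ,
    0 < T → 0 < r → 0 ≤ K →
    (∀ x, |circ (u 0) x| ≤ c / Real.log (2 + K) ^ (3 / 4 : ℝ)) → energy (u 0) ≤ K * r →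
    (∀ x, rad x < r → |circ (u 0) x| ≤ K * (rad x / r) ^ 2) → (∀ z, ballVorticity (u 0) z r ≤ K / r ^ 3) →
    ∃ C : ℝ, ∀ t ∈ Ico 0 T, ∀ x, rad x < r → |circ (u t) x| ≤ C * rad x := by
  obtain ⟨c, hc, hm⟩ := result
  exact ⟨c, hc, fun T u p h r K hT hr hK h1 h2 h3 h4 =>
    hm T u p h 0 r K le_rfl hT hr hK (fun t ht x _ => h.ns.circ_max h1 t ht x) (Or.inl h2) h3 h4⟩

/-- **Circulation small against the power 3/4 of the logarithm of the distance to the axis.** -/
theorem limit : ∃ c : ℝ, 0 < c ∧ ∀ (T : ℝ) (u : ℝ → E3 → E3) (p : ℝ → E3 → ℝ), IsHInfAxisymNS T u p → ∀ t₀ r₀ : ℝ,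
    0 ≤ t₀ → t₀ < T → 0 < r₀ → r₀ < 1 →
    (∀ t ∈ Ico t₀ T, ∀ x, 0 < rad x → rad x < r₀ → |circ (u t) x| ≤ c / |Real.log (rad x)| ^ (3 / 4 : ℝ)) →
    ∃ C : ℝ, ∀ t ∈ Ico t₀ T, ∀ x, rad x < r₀ → |circ (u t) x| ≤ C * rad x := by
  obtain ⟨c, hc, hm⟩ := result
  refine ⟨c / 2, by positivity, fun T u p h t₀ r₀ h0 hT hr0 hr1 hΓ => ?_⟩
  have hv : Pool.Agent.H94.EP.Vs (u t₀) := Pool.Agent.H37.EP.vs_of h ⟨h0, hT⟩
  obtain ⟨riV, -, riO, riZ, -⟩ := Pool.Agent.H87.EP.vs_ri hv
  obtain ⟨B1, hB1⟩ := riV.db 0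
  obtain ⟨B2, hB2⟩ := riO.db 0
  obtain ⟨B3, hB3⟩ := riZ.db 0
  obtain ⟨A, hA⟩ : ∃ A : ℝ, A = 1 + energy (u 0) + |B1| + |B2| + |B3| := ⟨_, rfl⟩
  have hE : 0 ≤ energy (u 0) := integral_nonneg fun x => by positivity
  have a1 := abs_nonneg B1
  have a2 := abs_nonneg B2
  have a3 := abs_nonneg B3
  have hA1 : 1 ≤ A := by linarith
  -- the radius
  obtain ⟨r, hr⟩ : ∃ r : ℝ, r = min (r₀ / 2) (1 / (2 + A)) := ⟨_, rfl⟩
  have hrp : 0 < r := by
    rw [hr]
    exact lt_min (by positivity) (by positivity)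
  have hrr0 : r < r₀ := by
    rw [hr]
    exact (min_le_left _ _).trans_lt (by linarith)
  have hrA : r * (2 + A) ≤ 1 := by
    have h1 : r ≤ 1 / (2 + A) := by
      rw [hr]
      exact min_le_right _ _
    rwa [le_div_iff₀ (by positivity)] at h1
  have hr1' : r < 1 := hrr0.trans hr1
  have hlog : Real.log (2 + A / r) ≤ 2 * |Real.log r| := by
    have h1 : 2 + A / r ≤ (r⁻¹) ^ 2 := by
      have h2 : (2 + A / r) * r ^ 2 ≤ 1 := by
        have h3 : (2 + A / r) * r ^ 2 = r * (2 * r + A) := by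
          field_simp
        rw [h3]
        nlinarith
      rw [inv_pow, ← one_div, le_div_iff₀ (by positivity)]
      exact h2
    have h2 : |Real.log r| = - Real.log r := abs_of_neg (Real.log_neg hrp hr1')
    calc Real.log (2 + A / r) ≤ Real.log ((r⁻¹) ^ 2) := Real.log_le_log (by positivity) h1
      _ = 2 * |Real.log r| := by
        rw [Real.log_pow, Real.log_inv, h2]
        norm_num
  have hl0 : 0 < Real.log (2 + A / r) := Real.log_pos (by
    have : 0 < A / r := by positivity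
    linarith)
  have hlr : 0 < |Real.log r| := by linarith
  have hpow : Real.log (2 + A / r) ^ (3 / 4 : ℝ) ≤ 2 * |Real.log r| ^ (3 / 4 : ℝ) := by
    calc Real.log (2 + A / r) ^ (3 / 4 : ℝ) ≤ (2 * |Real.log r|) ^ (3 / 4 : ℝ) :=
          Real.rpow_le_rpow hl0.le hlog (by norm_num)
      _ = 2 ^ (3 / 4 : ℝ) * |Real.log r| ^ (3 / 4 : ℝ) := Real.mul_rpow (by norm_num) hlr.le
      _ ≤ 2 * |Real.log r| ^ (3 / 4 : ℝ) := by
        refine mul_le_mul_of_nonneg_right ?_ (by positivity)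
        calc (2 : ℝ) ^ (3 / 4 : ℝ) ≤ 2 ^ (1 : ℝ) := Real.rpow_le_rpow_of_exponent_le (by norm_num) (by norm_num)
          _ = 2 := Real.rpow_one 2
  have hax : ∀ (t : ℝ) (x : E3), ¬ 0 < rad x → circ (u t) x = 0 := by
    intro t x hx
    have h1 : rad x = 0 := le_antisymm (not_lt.1 hx) (Real.sqrt_nonneg _)
    have h2 : x 0 ^ 2 + x 1 ^ 2 = 0 := by
      have h3 := rad_sq' x
      rw [h1] at h3
      have h4 : rsq x = x 0 ^ 2 + x 1 ^ 2 := rfl
      rw [← h4, ← h3]
      norm_num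
    have hx0 : x 0 = 0 := by nlinarith [sq_nonneg (x 0), sq_nonneg (x 1)]
    have hx1 : x 1 = 0 := by nlinarith [sq_nonneg (x 0), sq_nonneg (x 1)]
    unfold circ
    rw [hx0, hx1]
    ring
  have g1 : ∀ t ∈ Ico t₀ T, ∀ x, rad x < r → |circ (u t) x| ≤ c / Real.log (2 + A / r) ^ (3 / 4 : ℝ) := by
    intro t ht x hx
    -- the circulation
    by_cases hx0 : 0 < rad x
    · have h1 := hΓ t ht x hx0 (hx.trans hrr0)
      have h3 : |Real.log r| ≤ |Real.log (rad x)| := by
        rw [abs_of_neg (Real.log_neg hrp hr1'), abs_of_neg (Real.log_neg hx0 (hx.trans hr1'))]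
        have := Real.log_le_log hx0 hx.le
        linarith
      have h5 : |Real.log r| ^ (3 / 4 : ℝ) ≤ |Real.log (rad x)| ^ (3 / 4 : ℝ) := Real.rpow_le_rpow hlr.le h3 (by norm_num)
      have h6 : 0 < |Real.log r| ^ (3 / 4 : ℝ) := Real.rpow_pos_of_pos hlr _
      have h7 : 0 < Real.log (2 + A / r) ^ (3 / 4 : ℝ) := Real.rpow_pos_of_pos hl0 _
      calc |circ (u t) x| ≤ c / 2 / |Real.log (rad x)| ^ (3 / 4 : ℝ) := h1
        _ ≤ c / 2 / |Real.log r| ^ (3 / 4 : ℝ) := div_le_div_of_nonneg_left (by positivity) h6 h5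
        _ = c / (2 * |Real.log r| ^ (3 / 4 : ℝ)) := by rw [div_div]
        _ ≤ c / Real.log (2 + A / r) ^ (3 / 4 : ℝ) := div_le_div_of_nonneg_left hc.le h7 hpow
    · rw [hax t x hx0, abs_zero]
      positivity
  have g2 : energy (u 0) ≤ A / r * r := by
    have : A / r * r = A := by field_simp
    rw [this]
    linarith
  have g3 : ∀ x, rad x < r → |circ (u t₀) x| ≤ A / r * (rad x / r) ^ 2 := by
    intro x hx
    -- `V` is bounded
    have h1 : circ (u t₀) x = rsq x * sV (u t₀) x := circ_eq hv.ax x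
    have h2 : |sV (u t₀) x| ≤ A := ((DB_BL hB1).1 x).trans ((le_abs_self B1).trans (by linarith))
    have h3 : rsq x = rad x ^ 2 := (rad_sq' x).symm
    rw [h1, abs_mul, h3, abs_of_nonneg (sq_nonneg _)]
    have h4 : A / r * (rad x / r) ^ 2 = rad x ^ 2 * (A / r ^ 3) := by
      field_simp
    rw [h4]
    refine mul_le_mul_of_nonneg_left (h2.trans ?_) (sq_nonneg _)
    rw [le_div_iff₀ (by positivity)]
    have h5 : r ^ 3 ≤ 1 := pow_le_one₀ hrp.le hr1'.le
    nlinarith
  have g4 : ∀ z, ballVorticity (u t₀) z r ≤ A / r / r ^ 3 := by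
    intro z
    -- the vorticity
    have e1 := ballVorticity_eq hv.ax z r
    have iO := (DB_BL hB2).2
    have iZ := (DB_BL hB3).2
    have e2 : ∫ x in Metric.ball (axp z) r, (curl (u t₀) x 0 ^ 2 + curl (u t₀) x 1 ^ 2) / rsq x =
        ∫ x in Metric.ball (axp z) r, (Pool.Agent.H94.EP.Zz (u t₀) x ^ 2 + sO (u t₀) x ^ 2) := by
      refine integral_congr_ae (ae_restrict_of_ae ?_)
      filter_upwards [Pool.Agent.H87.NS.axis_null] with x hx
      have hx' : 0 < rsq x := by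
        rw [← rad_sq']
        positivity
      exact Pool.Agent.H94.EP.curl_sq hv.ax hx'
    rw [← e1, e2]
    have hi : Integrable (fun x => Pool.Agent.H94.EP.Zz (u t₀) x ^ 2 + sO (u t₀) x ^ 2) := iZ.1.add iO.1
    have h1 : ∫ x in Metric.ball (axp z) r, (Pool.Agent.H94.EP.Zz (u t₀) x ^ 2 + sO (u t₀) x ^ 2) ≤
        ∫ x, (Pool.Agent.H94.EP.Zz (u t₀) x ^ 2 + sO (u t₀) x ^ 2) :=
      setIntegral_le_integral hi (Eventually.of_forall fun x => by positivity)
    rw [integral_add iZ.1 iO.1] at h1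
    have h2 : (∫ x, Pool.Agent.H94.EP.Zz (u t₀) x ^ 2) + ∫ x, sO (u t₀) x ^ 2 ≤ A := by
      have h3 := iZ.2
      have h4 := iO.2
      have h5 := le_abs_self B2
      have h6 := le_abs_self B3
      linarith
    refine h1.trans (h2.trans ?_)
    rw [div_div, le_div_iff₀ (by positivity)]
    have h5 : r * r ^ 3 ≤ 1 := by
      have : r * r ^ 3 = r ^ 4 := by ring
      rw [this]
      exact pow_le_one₀ hrp.le hr1'.le
    nlinarith
  obtain ⟨C, hC⟩ := hm T u p h t₀ r (A / r) h0 hT hrp (by positivity) g1 (Or.inl g2) g3 g4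
  refine ⟨max C (c / 2 / |Real.log r₀| ^ (3 / 4 : ℝ) / r), fun t ht x hx => ?_⟩
  have hR : 0 ≤ rad x := Real.sqrt_nonneg _
  rcases lt_or_ge (rad x) r with h1 | h1
  · exact (hC t ht x h1).trans (mul_le_mul_of_nonneg_right (le_max_left _ _) hR)
  · have h2 := hΓ t ht x (hrp.trans_le h1) hx
    have h3 : |Real.log r₀| ≤ |Real.log (rad x)| := by
      rw [abs_of_neg (Real.log_neg hr0 hr1), abs_of_neg (Real.log_neg (hrp.trans_le h1) (hx.trans hr1))]
      have := Real.log_le_log (hrp.trans_le h1) hx.le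
      linarith
    have h4 : 0 < |Real.log r₀| := by
      rw [abs_of_neg (Real.log_neg hr0 hr1)]
      have := Real.log_neg hr0 hr1
      linarith
    have h5 : |Real.log r₀| ^ (3 / 4 : ℝ) ≤ |Real.log (rad x)| ^ (3 / 4 : ℝ) := Real.rpow_le_rpow h4.le h3 (by norm_num)
    have h6 : 0 < |Real.log r₀| ^ (3 / 4 : ℝ) := Real.rpow_pos_of_pos h4 _
    calc |circ (u t) x| ≤ c / 2 / |Real.log (rad x)| ^ (3 / 4 : ℝ) := h2
      _ ≤ c / 2 / |Real.log r₀| ^ (3 / 4 : ℝ) := div_le_div_of_nonneg_left (by positivity) h6 h5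
      _ = c / 2 / |Real.log r₀| ^ (3 / 4 : ℝ) / r * r := by field_simp
      _ ≤ c / 2 / |Real.log r₀| ^ (3 / 4 : ℝ) / r * rad x := mul_le_mul_of_nonneg_left h1 (by positivity)
      _ ≤ _ := mul_le_mul_of_nonneg_right (le_max_right _ _) hR

end Pool.Agent.Results.MP_09540e_an.CirculationThreeQuarters
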