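import Pool.Agent.H16.TU.Fin

/-!
Axially symmetric Navier-Stokes flows whose radial velocity alone is of type I in the distance `r` to the axis,
`|u_r| ≤ C / r` near the axis with any constant `C`, do not blow up: the circulation `Γ = r u_θ` is at most
`C' r^δ` near the axis.

Idea of the proof. Let `ψ` be the stream function, `u_r = - ∂_z ψ`, `u_z = (1/r) ∂_r (r ψ)`. If `ψ` is bounded,
then `Γ` is Hölder continuous at the axis. If not, take a point where `|ψ|` is almost as large as ever before, of size
`N`, and rescale its distance to the axis to `1`. Since `|u_r| ≤ κ / r`, a column of length `N / κ` below or above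
this point moves with vertical velocity of size `N`. An energy estimate on long cylinders of radius `R` and length
`Z N R`, in which the vertical flux is controlled by `|ψ| ≤ N`, shows that the energy in them is at most `C N³ R`.
Then `w = u_z / N`, mollified horizontally, satisfies a transport and diffusion equation along the column without a
source: the pressure gradient is of lower order, because it involves only `u_r`, `u_θ` at unit distance. A
convex functional of `w` decays exponentially, so that `w` is small at the last time: a contradiction.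
-/

open Set Filter Topology MeasureTheory
open scoped ContDiff
open Pool.Agent.H16 Pool.Agent.H87.NS

namespace Pool.Agent.Results.MP_09540e_an.RadialTypeOne

/-- **Type I in the radial velocity alone.** -/
theorem result (T : ℝ) (u : ℝ → E3 → E3) (p : ℝ → E3 → ℝ) (h : IsHInfAxisymNS T u p)
    (t₀ C : ℝ) (ht₀ : 0 ≤ t₀) (htT : t₀ < T)
    (hr : ∀ t ∈ Ioo t₀ T, ∀ x, |radFlux (u t) x| ≤ C * (1 + rad x)) :
    ∃ δ C' : ℝ, 0 < δ ∧ ∀ t ∈ Ico 0 T, ∀ x, rad x ≤ 1 → |circ (u t) x| ≤ C' * rad x ^ δ := by
  obtain ⟨K, hK⟩ := h.ns.bounded t₀ htT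
  have hK0 : 0 ≤ K := (norm_nonneg _).trans (hK 0 ⟨le_rfl, ht₀⟩ 0)
  refine Pool.Agent.H16.TU.main h ⟨K + |C|, fun t ht x => ?_⟩
  have hx := rad_nonneg x
  rcases le_or_gt t t₀ with htt | htt
  · have h1 := hK t ⟨ht.1, htt⟩ x
    have h2 := abs_nonneg C
    calc |radFlux (u t) x| ≤ rad x * ‖u t x‖ := radFlux_le _ _
      _ ≤ rad x * K := mul_le_mul_of_nonneg_left h1 hx
      _ ≤ (K + |C|) * (1 + rad x) := by nlinarith
  · have h1 := hr t ⟨htt, ht.2⟩ x
    have h2 := le_abs_self C
    nlinarith

end Pool.Agent.Results.MP_09540e_an.RadialTypeOne
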