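import Pool.Agent.H94.WL.Fin

/-!
Axially symmetric Navier-Stokes flows whose radial velocity alone lies, near the axis, in a scale invariant class of
functions of the space variables, of any size, do not blow up: the circulation `Γ = r u_θ` is at most `C' r^δ` near the
axis. The class contains `L^∞(t₀, T; L^{3,∞}(ℝ³))` (weak `L³`, theorem `weakL3`).
-/

open Set Filter Topology MeasureTheory
open Pool.Agent.H16 Pool.Agent.H87.NS

namespace Pool.Agent.Results.MP_09540e_an.RadialWeakL3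

theorem abs_ur {v : E3 → E3} (h : AxF v) (x : E3) : |radFlux v x / rad x| = |Pool.Agent.H94.WL.ur v x| := by
  have h1 := flux_eq h x
  unfold Pool.Agent.H94.WL.ur
  rcases (rad_nonneg x).eq_or_lt with h0 | h0
  · rw [← h0]
    simp
  · have h2 : rsq x = rad x ^ 2 := (rad_sq' x).symm
    rw [h1, h2]
    congr 1
    field_simp

/-- **Scale invariant bounds of the radial velocity alone.** -/
theorem result (T : ℝ) (u : ℝ → E3 → E3) (p : ℝ → E3 → ℝ) (h : IsHInfAxisymNS T u p)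
    (t₀ q : ℝ) (ht₀ : 0 ≤ t₀) (htT : t₀ < T) (hq : 2 < q) (g : ℝ → ℝ) (hg : Tendsto g atTop (𝓝 0))
    (hr : ∀ t ∈ Ioo t₀ T, ∀ z a l : ℝ, 0 < a → a ≤ l →
      ∫ x in {x : E3 | rad x < a ∧ |x 2 - z| < l}, |radFlux (u t) x / rad x| ^ q ≤ g (l / a) * a ^ (2 - q) * l) :
    ∃ δ C' r₁ : ℝ, 0 < δ ∧ 0 < r₁ ∧ ∀ t ∈ Ico 0 T, ∀ x, rad x ≤ r₁ → |circ (u t) x| ≤ C' * rad x ^ δ := by
  refine Pool.Agent.H94.WL.main h hq ht₀ htT hg fun t ht A l z hA hAl => ?_
  have h1 := hr t ht z A l hA hAl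
  have h2 := axF_of h.ns (t := t) ⟨ht₀.trans ht.1.le, ht.2⟩
  simp only [abs_ur h2] at h1
  exact h1

/-- Functions in weak `L³` over sets of finite measure. -/
theorem layer {f : E3 → ℝ} (hf : Continuous f) {A : Set E3} {m C : ℝ} (hm : 0 < m) (hC : 0 ≤ C)
    (hvol : volume A ≤ ENNReal.ofReal (7 * m))
    (H : ∀ lam : ℝ, 0 < lam → volume {x : E3 | lam < |f x|} ≤ ENNReal.ofReal (C / lam ^ 3)) :
    ∫ x in A, |f x| ^ (5 / 2 : ℝ) ≤ (18 + 5 * C) * m ^ (1 / 6 : ℝ) := by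
  set L : ℝ := m ^ (-(1 / 3) : ℝ) with hL
  have hL0 : 0 < L := Real.rpow_pos_of_pos hm _
  have e1 : m * L ^ (5 / 2 : ℝ) = m ^ (1 / 6 : ℝ) := by
    rw [hL, ← Real.rpow_mul hm.le]
    nth_rw 1 [← Real.rpow_one m]
    rw [← Real.rpow_add hm]
    norm_num
  have e2 : L ^ (-(1 / 2) : ℝ) = m ^ (1 / 6 : ℝ) := by
    rw [hL, ← Real.rpow_mul hm.le]
    norm_num
  have hc : Continuous (fun x => |f x| ^ (5 / 2 : ℝ)) := hf.abs.rpow_const fun x => Or.inr (by norm_num)
  rw [integral_eq_lintegral_of_nonneg_ae (Eventually.of_forall fun x => by positivity) hc.aestronglyMeasurable]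
  refine ENNReal.toReal_le_of_le_ofReal (by positivity) ?_
  rw [lintegral_rpow_eq_lintegral_meas_lt_mul (volume.restrict A) (Eventually.of_forall fun x => abs_nonneg (f x))
    hf.abs.aemeasurable (by norm_num : (0:ℝ) < 5 / 2)]
  have h1 : ∀ t : ℝ, (volume.restrict A) {x | t < |f x|} ≤ ENNReal.ofReal (7 * m) := fun t =>
    (measure_mono (subset_univ _)).trans (by rw [Measure.restrict_apply_univ]; exact hvol)
  have h2 : ∀ t : ℝ, 0 < t → (volume.restrict A) {x | t < |f x|} ≤ ENNReal.ofReal (C / t ^ 3) := fun t ht =>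
    (Measure.restrict_apply_le _ _).trans (H t ht)
  have h3 : ∫⁻ t in Ioi 0, (volume.restrict A) {x | t < |f x|} * ENNReal.ofReal (t ^ (5 / 2 - 1 : ℝ)) ≤
      ENNReal.ofReal (7 * m * L ^ (5 / 2 : ℝ)) + ENNReal.ofReal (2 * C * L ^ (-(1 / 2) : ℝ)) := by
    rw [← Ioc_union_Ioi_eq_Ioi hL0.le]
    refine (lintegral_union_le _ _ _).trans (add_le_add ?_ ?_)
    · refine (setLIntegral_mono' measurableSet_Ioc
        (g := fun _ => ENNReal.ofReal (7 * m) * ENNReal.ofReal (L ^ (5 / 2 - 1 : ℝ))) fun t ht => ?_).trans ?_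
      · exact mul_le_mul' (h1 t) (ENNReal.ofReal_le_ofReal (Real.rpow_le_rpow ht.1.le ht.2 (by norm_num)))
      · rw [setLIntegral_const, Real.volume_Ioc, sub_zero, ← ENNReal.ofReal_mul (by positivity),
          ← ENNReal.ofReal_mul (by positivity)]
        refine ENNReal.ofReal_le_ofReal (le_of_eq ?_)
        rw [mul_assoc]
        congr 1
        nth_rw 2 [← Real.rpow_one L]
        rw [← Real.rpow_add hL0]
        norm_num
    · have h4 : ∀ t ∈ Ioi L, (volume.restrict A) {x | t < |f x|} * ENNReal.ofReal (t ^ (5 / 2 - 1 : ℝ)) ≤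
          ENNReal.ofReal (C * t ^ (-(3 / 2) : ℝ)) := by
        intro t ht
        have ht0 : 0 < t := hL0.trans ht
        refine (mul_le_mul' (h2 t ht0) le_rfl).trans (le_of_eq ?_)
        rw [← ENNReal.ofReal_mul (by positivity)]
        congr 1
        rw [div_eq_mul_inv, mul_assoc]
        congr 1
        rw [← Real.rpow_natCast, ← Real.rpow_neg ht0.le, ← Real.rpow_add ht0]
        norm_num
      refine (setLIntegral_mono' measurableSet_Ioi h4).trans (le_of_eq ?_)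
      have h5 := (integrableOn_Ioi_rpow_of_lt (by norm_num : (-(3 / 2) : ℝ) < -1) hL0).const_mul C
      rw [← ofReal_integral_eq_lintegral_ofReal h5 ?_]
      · rw [integral_const_mul, integral_Ioi_rpow_of_lt (by norm_num) hL0]
        congr 1
        norm_num
        ring
      · rw [EventuallyLE, ae_restrict_iff' measurableSet_Ioi]
        exact Eventually.of_forall fun t ht => mul_nonneg hC (Real.rpow_nonneg (hL0.trans ht).le _)
  refine (mul_le_mul' le_rfl h3).trans ?_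
  rw [← ENNReal.ofReal_add (by positivity) (by positivity), ← ENNReal.ofReal_mul (by norm_num)]
  refine ENNReal.ofReal_le_ofReal ?_
  rw [mul_assoc 7, e1, e2]
  have : 0 ≤ m ^ (1 / 6 : ℝ) := by positivity
  nlinarith

/-- **The radial velocity alone in weak `L³`, of any size.** -/
theorem weakL3 (T : ℝ) (u : ℝ → E3 → E3) (p : ℝ → E3 → ℝ) (h : IsHInfAxisymNS T u p)
    (t₀ C : ℝ) (ht₀ : 0 ≤ t₀) (htT : t₀ < T)
    (hr : ∀ t ∈ Ioo t₀ T, ∀ lam : ℝ, 0 < lam →
      volume {x : E3 | lam < |radFlux (u t) x / rad x|} ≤ ENNReal.ofReal (C / lam ^ 3)) :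
    ∃ δ C' r₁ : ℝ, 0 < δ ∧ 0 < r₁ ∧ ∀ t ∈ Ico 0 T, ∀ x, rad x ≤ r₁ → |circ (u t) x| ≤ C' * rad x ^ δ := by
  refine result T u p h t₀ (5 / 2) ht₀ htT (by norm_num) (fun s => (18 + 5 * |C|) * s ^ (-(5 / 6) : ℝ)) ?_ ?_
  · have h1 := (tendsto_rpow_neg_atTop (show (0:ℝ) < 5 / 6 by norm_num)).const_mul (18 + 5 * |C|)
    rwa [mul_zero] at h1
  · intro t ht z a l ha hal
    have hl : 0 < l := ha.trans_le hal
    have h2 := axF_of h.ns (t := t) ⟨ht₀.trans ht.1.le, ht.2⟩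
    have h3 : ∀ lam : ℝ, 0 < lam → volume {x : E3 | lam < |Pool.Agent.H94.WL.ur (u t) x|} ≤
        ENNReal.ofReal (|C| / lam ^ 3) := by
      intro lam hlam
      have h4 := hr t ht lam hlam
      simp only [abs_ur h2] at h4
      refine h4.trans (ENNReal.ofReal_le_ofReal ?_)
      have := le_abs_self C
      gcongr
    have h5 : volume (Pool.Agent.H94.WL.cy a l z) ≤ ENNReal.ofReal (7 * (a ^ 2 * l)) := by
      rw [Pool.Agent.H94.WL.cy_vol ha hl]
      refine ENNReal.ofReal_le_ofReal ?_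
      have h6 := Real.pi_lt_d2
      have h7 : 0 < a ^ 2 * l := by positivity
      nlinarith
    have h8 := layer (Pool.Agent.H94.WL.ur_c h2).1 (show 0 < a ^ 2 * l by positivity) (abs_nonneg C) h5 h3
    simp only [abs_ur h2]
    refine h8.trans (le_of_eq ?_)
    have e1 : (a ^ 2 * l) ^ (1 / 6 : ℝ) = a ^ (1 / 3 : ℝ) * l ^ (1 / 6 : ℝ) := by
      rw [Real.mul_rpow (by positivity) hl.le, ← Real.rpow_natCast, ← Real.rpow_mul ha.le]
      norm_num
    have e2 : (l / a) ^ (-(5 / 6) : ℝ) = l ^ (-(5 / 6) : ℝ) * a ^ (5 / 6 : ℝ) := by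
      rw [Real.div_rpow hl.le ha.le, Real.rpow_neg ha.le, div_inv_eq_mul]
    have e3 : a ^ (1 / 3 : ℝ) = a ^ (5 / 6 : ℝ) * a ^ (2 - 5 / 2 : ℝ) := by
      rw [← Real.rpow_add ha]
      norm_num
    have e4 : l ^ (1 / 6 : ℝ) = l ^ (-(5 / 6) : ℝ) * l := by
      nth_rw 3 [← Real.rpow_one l]
      rw [← Real.rpow_add hl]
      norm_num
    rw [e1, e2, e3, e4]
    ring

end Pool.Agent.Results.MP_09540e_an.RadialWeakL3
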