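import Pool.Agent.H94.LS.Main2

/-!
Axially symmetric Navier-Stokes flows: scale invariant bounds at few scales exclude a blow-up.

All theorems which exclude blow-ups of type I assume a scale invariant bound at all small scales. Here the bounds are assumed at few scales only.

* `result`: the general statement. The scales may depend on the point; only the axial velocity is bounded at the good scales, and the energy
  at one smaller scale.
* `sequence`: no blow-up if the scaled energy is bounded along one sequence of scales tending to zero, however sparse. So if there is a blow-up at the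
  time `T` then the supremum of `(∫ ‖u t‖ ^ 2) / r` over all balls of radius `r` and all `t < T` tends to infinity as `r → 0`.
* `osgood`: no blow-up if the sum of `exp (- B (κ n) ^ 23)` diverges, where `κ n` bounds the scaled energy at the scale `4⁻ⁿ`
  (the numbers `n` without a bound are left out of the sum). So the bounds may grow, or hold at a few scales only.
* `number`: if for arbitrarily large `m` there is a scale `r` with this bound, such that at each point `(t, z)` at least `m` of the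
  scales larger than `r` have the scaled energy of the axial velocity bounded, then there is no blow-up.
* `axial`: no blow-up if at each point `(t, z)` a few of the first `N` scales, a multiple of `log N`, have the scaled energy of the axial velocity
  bounded.

Idea of the proof. At a scale which is good for the axial velocity the oscillation of the circulation `Γ` decreases by a factor; at the other scales it does
not increase, by the maximum principle. So after enough good scales `Γ` is small near the axis, and the rest of the argument uses one scale only: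
blow-up is excluded if `|Γ| ≤ c / log (2 + K) ^ (3/4)`, where `K` bounds the scaled energy and dissipation at this scale `r` and scale invariant norms of
the data at a fixed time `t₁ < T`. The latter tend to zero as `r → 0`, as the solution is smooth at `t₁`. The dissipation at the scale `r` is at most
`C (1 + K) ^ 5 r` if the energy of each ball of radius `r` is at most `K r`: local energy equality with a weight, and the pressure written with the kernel
`1 / |x|` and differentiated three times in the far part.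
-/

set_option autoImplicit false

open Set Filter Topology MeasureTheory
open scoped ContDiff
open Pool.Agent.H16 Pool.Agent.H87.NS Pool.Agent.H72.CC Pool.Agent.H16.TU

namespace Pool.Agent.Results.MP_09540e_an.TypeOneScales

/-- The energy of `v`. -/
noncomputable def energy (v : E3 → E3) : ℝ := ∫ x, ‖v x‖ ^ 2

/-- The energy of `v` in the ball of radius `r` around `y`. -/
noncomputable def ballEnergy (v : E3 → E3) (y : E3) (r : ℝ) : ℝ := ∫ x in Metric.ball y r, ‖v x‖ ^ 2

/-- The dissipation of `v` in that ball. -/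
noncomputable def ballDissipation (v : E3 → E3) (y : E3) (r : ℝ) : ℝ := ∫ x in Metric.ball y r, gv v x

/-- The energy of the axial component of `v` in the cylinder of radius and half height `a` around the point `(0, 0, z)`. -/
noncomputable def axialEnergy (v : E3 → E3) (z a : ℝ) : ℝ := ∫ x in {x : E3 | rad x < a ∧ |x 2 - z| < a}, v x 2 ^ 2

/-- The scale `a` is good at the point `(t, z)`, with the constant `κ`. -/
def Good (t₀ : ℝ) (u : ℝ → E3 → E3) (t z a κ : ℝ) : Prop :=
  ∀ s : ℝ, t₀ < s → t - a ^ 2 ≤ s → s ≤ t → axialEnergy (u s) z a ≤ κ * a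

/-- The scaled energy at the scale `r` is at most `K`: the energy of each ball of radius `r`, or the energy and the dissipation of the balls of radius
`r` centred on the axis. -/
def BallBound (T t₀ : ℝ) (u : ℝ → E3 → E3) (r K : ℝ) : Prop :=
  (∀ t ∈ Ico t₀ T, ∀ y, ballEnergy (u t) y r ≤ K * r) ∨
  (∀ t ∈ Ico t₀ T, ∀ z, ballEnergy (u t) (axp z) r ≤ K * r) ∧
    (∀ s t : ℝ, t₀ ≤ s → s ≤ t → t < T → t ≤ s + r ^ 2 → ∀ z, ∫ τ in s..t, ballDissipation (u τ) (axp z) r ≤ K * r)

theorem BallBound.axis {T t₀ : ℝ} {u : ℝ → E3 → E3} {r K : ℝ} (h : BallBound T t₀ u r K) : ∀ t ∈ Ico t₀ T, ∀ z,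
    ballEnergy (u t) (axp z) r ≤ K * r := by
  rcases h with h | h
  · exact fun t ht z => h t ht (axp z)
  · exact h.1

/-- Near the axis the circulation is at most a multiple of the distance to the axis. -/
def Regular (T : ℝ) (u : ℝ → E3 → E3) : Prop :=
  ∃ C r₁ : ℝ, 0 < r₁ ∧ ∀ t ∈ Ico 0 T, ∀ x, rad x < r₁ → |circ (u t) x| ≤ C * rad x

/-- **Few good scales exclude a blow-up.** -/
theorem result : ∃ A : ℝ, 0 < A ∧ ∀ (T t₀ : ℝ) (u : ℝ → E3 → E3) (p : ℝ → E3 → ℝ),
    IsHInfAxisymNS T u p → 0 ≤ t₀ → t₀ < T →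
    (∀ b : ℝ, ∃ r K : ℝ, 0 < r ∧ 0 ≤ K ∧ (energy (u 0) ≤ K * r ∨ BallBound T t₀ u r K) ∧
      ∀ t ∈ Ioo t₀ T, ∀ z : ℝ, ∃ (S : Finset ℕ) (κ : ℕ → ℝ),
        (∀ n ∈ S, 4 * r ≤ (1/4) ^ n ∧ 1 ≤ κ n ∧ Good t₀ u t z ((1/4) ^ n) (κ n)) ∧
        b + Real.log (Real.log (2 + K)) ≤ ∑ n ∈ S, Real.exp (-(A * κ n ^ 23))) →
    Regular T u := Pool.Agent.H94.LS.main2

theorem energy_nonneg (v : E3 → E3) : 0 ≤ energy v := integral_nonneg fun x => by positivity

theorem BallBound.mono {T t₀ : ℝ} {u : ℝ → E3 → E3} {r K K' : ℝ} (h : BallBound T t₀ u r K) (hr : 0 < r) (hK : K ≤ K') :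
    BallBound T t₀ u r K' := by
  have hKr : K * r ≤ K' * r := mul_le_mul_of_nonneg_right hK hr.le
  rcases h with h | h
  · exact Or.inl fun t ht y => (h t ht y).trans hKr
  · exact Or.inr ⟨fun t ht z => (h.1 t ht z).trans hKr, fun s t h1 h2 h3 h4 z => (h.2 s t h1 h2 h3 h4 z).trans hKr⟩

/-- **A bounded number of good scales.** The constant `K` is arbitrary, and may depend on the solution. -/
theorem number (T t₀ K : ℝ) (u : ℝ → E3 → E3) (p : ℝ → E3 → ℝ) (h : IsHInfAxisymNS T u p) (h0 : 0 ≤ t₀) (hT : t₀ < T)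
    (hyp : ∀ m : ℕ, ∃ r : ℝ, 0 < r ∧ BallBound T t₀ u r K ∧
      ∀ t ∈ Ioo t₀ T, ∀ z : ℝ, ∃ S : Finset ℕ, m ≤ S.card ∧ ∀ n ∈ S, 4 * r ≤ (1/4) ^ n ∧ Good t₀ u t z ((1/4) ^ n) K) :
    Regular T u := by
  obtain ⟨A, hA, H⟩ := result
  refine H T t₀ u p h h0 hT fun b => ?_
  obtain ⟨κ, hκ⟩ : ∃ κ : ℝ, κ = max K 1 := ⟨_, rfl⟩
  have hκ1 : 1 ≤ κ := by rw [hκ]; exact le_max_right _ _
  have hKκ : K ≤ κ := by rw [hκ]; exact le_max_left _ _
  obtain ⟨δ, hδ⟩ : ∃ δ : ℝ, δ = Real.exp (-(A * κ ^ 23)) := ⟨_, rfl⟩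
  have hδ0 : 0 < δ := by rw [hδ]; exact Real.exp_pos _
  obtain ⟨m, hm⟩ := exists_nat_ge ((b + Real.log (Real.log (2 + κ))) / δ)
  rw [div_le_iff₀ hδ0] at hm
  obtain ⟨r, hr, hB, hS⟩ := hyp m
  refine ⟨r, κ, hr, by linarith, Or.inr (hB.mono hr hKκ), fun t ht z => ?_⟩
  obtain ⟨S, hS1, hS2⟩ := hS t ht z
  refine ⟨S, fun _ => κ, fun n hn => ⟨(hS2 n hn).1, hκ1, fun s h1 h2 h3 => ((hS2 n hn).2 s h1 h2 h3).trans
    (mul_le_mul_of_nonneg_right hKκ (by positivity))⟩, ?_⟩
  rw [Finset.sum_const, nsmul_eq_mul, ← hδ]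
  refine hm.trans (mul_le_mul_of_nonneg_right ?_ hδ0.le)
  exact_mod_cast hS1

/-- A scale comparable with a scale at which the energy is bounded is good. -/
theorem BallBound.good {T t₀ : ℝ} {u : ℝ → E3 → E3} {p : ℝ → E3 → ℝ} (h : IsHInfAxisymNS T u p) (h0 : 0 ≤ t₀) {r K a : ℝ}
    (hB : BallBound T t₀ u r K) (ha : 0 < a) (har : 2 * a ≤ r) (hra : r ≤ 8 * a) {t : ℝ} (ht : t < T) (z : ℝ) :
    Good t₀ u t z a (8 * max K 0) := by
  intro s hs1 hs2 hs3
  have hs : s ∈ Ico 0 T := ⟨by linarith, by linarith⟩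
  have h1 := hB.axis s ⟨hs1.le, hs.2⟩ z
  have hsub : {x : E3 | rad x < a ∧ |x 2 - z| < a} ⊆ Metric.ball (axp z) r := by
    rintro x ⟨hx1, hx2⟩
    rw [Metric.mem_ball, dist_eq_norm]
    have h2 : ‖x - axp z‖ ≤ rad x + |x 2 - z| := by
      have e1 : x - axp z = (x - axp (x 2)) + (axp (x 2) - axp z) := by abel
      have e2 : ‖axp (x 2) - axp z‖ = |x 2 - z| := by
        rw [EuclideanSpace.norm_eq]
        simp [axp, Fin.sum_univ_three, Real.sqrt_sq_eq_abs]
      rw [e1]
      refine (norm_add_le _ _).trans ?_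
      rw [e2, Pool.Agent.H87.NS.Crit_axp]
    linarith
  have hmeas : MeasurableSet (Metric.ball (axp z) r) := measurableSet_ball
  have hcont : Continuous (u s) := (axF_of h.ns hs).smooth.continuous
  have hi : IntegrableOn (fun x => ‖u s x‖ ^ 2) (Metric.ball (axp z) r) := by
    refine (ContinuousOn.integrableOn_compact (isCompact_closedBall (axp z) r) ?_).mono_set Metric.ball_subset_closedBall
    exact (by fun_prop : Continuous fun x => ‖u s x‖ ^ 2).continuousOn
  have h3 : axialEnergy (u s) z a ≤ ballEnergy (u s) (axp z) r := by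
    unfold axialEnergy ballEnergy
    have hle : ∀ x, u s x 2 ^ 2 ≤ ‖u s x‖ ^ 2 := fun x => by
      have := EuclideanSpace.norm_sq_eq (u s x)
      rw [this, Fin.sum_univ_three]
      simp only [Real.norm_eq_abs, sq_abs]
      nlinarith [sq_nonneg (u s x 0), sq_nonneg (u s x 1)]
    calc ∫ x in {x : E3 | rad x < a ∧ |x 2 - z| < a}, u s x 2 ^ 2
        ≤ ∫ x in {x : E3 | rad x < a ∧ |x 2 - z| < a}, ‖u s x‖ ^ 2 := by
          refine integral_mono_of_nonneg (Eventually.of_forall fun x => by positivity) (hi.mono_set hsub)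
            (Eventually.of_forall hle)
      _ ≤ ∫ x in Metric.ball (axp z) r, ‖u s x‖ ^ 2 :=
          setIntegral_mono_set hi (Eventually.of_forall fun x => by positivity) (Eventually.of_forall hsub)
  have h4 : K ≤ max K 0 := le_max_left _ _
  have h5 : 0 ≤ max K 0 := le_max_right _ _
  calc axialEnergy (u s) z a ≤ K * r := h3.trans h1
    _ ≤ max K 0 * r := mul_le_mul_of_nonneg_right h4 (by linarith)
    _ ≤ max K 0 * (8 * a) := mul_le_mul_of_nonneg_left hra h5
    _ = 8 * max K 0 * a := by ring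

/-- **No blow-up of type I along a sequence of scales**, however sparse. -/
theorem sequence (T t₀ K : ℝ) (u : ℝ → E3 → E3) (p : ℝ → E3 → ℝ) (h : IsHInfAxisymNS T u p) (h0 : 0 ≤ t₀) (hT : t₀ < T)
    (hyp : ∀ ε : ℝ, 0 < ε → ∃ r : ℝ, 0 < r ∧ r < ε ∧ BallBound T t₀ u r K) : Regular T u := by
  obtain ⟨κ, hκ⟩ : ∃ κ : ℝ, κ = 8 * max K 0 := ⟨_, rfl⟩
  have hKκ : K ≤ κ := by
    rw [hκ]
    have h1 := le_max_left K 0
    have h2 := le_max_right K 0
    linarith
  have hinf : {n : ℕ | ∀ t ∈ Ioo t₀ T, ∀ z : ℝ, Good t₀ u t z ((1/4) ^ n) κ}.Infinite := by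
    rw [Set.infinite_iff_exists_gt]
    intro N
    obtain ⟨r, hr, hrN, hB⟩ := hyp ((1/4) ^ (N + 1)) (by positivity)
    obtain ⟨n, hn1, hn2⟩ := exists_nat_pow_near_of_lt_one (x := r / 2) (y := (1/4 : ℝ)) (by positivity) (by
      have : (1/4 : ℝ) ^ (N + 1) ≤ 1 := pow_le_one₀ (by norm_num) (by norm_num)
      linarith) (by norm_num) (by norm_num)
    refine ⟨n + 1, fun t ht z => ?_, ?_⟩
    · have e1 : (1/4 : ℝ) ^ (n + 1) = (1/4) ^ n / 4 := by ring
      rw [hκ]
      exact hB.good h h0 (by positivity) (by linarith) (by linarith) ht.2 z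
    · by_contra hc
      have h1 : (1/4 : ℝ) ^ (N + 1) ≤ (1/4) ^ (n + 1) :=
        pow_le_pow_of_le_one (by norm_num) (by norm_num) (by omega)
      linarith
  refine number T t₀ κ u p h h0 hT fun m => ?_
  obtain ⟨S, hS1, hS2⟩ := hinf.exists_subset_card_eq m
  obtain ⟨r, hr, hr2, hB⟩ := hyp ((1/4) ^ (S.sup id) / 4) (by positivity)
  refine ⟨r, hr, hB.mono hr hKκ, fun t ht z => ⟨S, hS2.ge, fun n hn => ⟨?_, hS1 hn t ht z⟩⟩⟩
  have h1 : n ≤ S.sup id := Finset.le_sup (f := id) hn
  have h2 : (1/4 : ℝ) ^ (S.sup id) ≤ (1/4) ^ n := pow_le_pow_of_le_one (by norm_num) (by norm_num) h1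
  linarith

/-- **The scaled energy tends to infinity along all scales**: if for some `K` there are arbitrarily small radii `r` such that the energy of each ball of
radius `r` is at most `K r` at all times in `[t₀, T)`, then there is no blow-up. -/
theorem energySequence (T t₀ K : ℝ) (u : ℝ → E3 → E3) (p : ℝ → E3 → ℝ) (h : IsHInfAxisymNS T u p) (h0 : 0 ≤ t₀) (hT : t₀ < T)
    (hyp : ∀ ε : ℝ, 0 < ε → ∃ r : ℝ, 0 < r ∧ r < ε ∧ ∀ t ∈ Ico t₀ T, ∀ y, ballEnergy (u t) y r ≤ K * r) : Regular T u :=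
  sequence T t₀ K u p h h0 hT fun ε hε => (hyp ε hε).imp fun _ hr => ⟨hr.1, hr.2.1, Or.inl hr.2.2⟩

/-- **The axial velocity at few scales**: of the first `N` scales, a multiple of `log N`. -/
theorem axial : ∃ A : ℝ, 0 < A ∧ ∀ (T t₀ : ℝ) (u : ℝ → E3 → E3) (p : ℝ → E3 → ℝ),
    IsHInfAxisymNS T u p → 0 ≤ t₀ → t₀ < T →
    (∀ b : ℝ, ∃ N : ℕ, 1 ≤ N ∧ ∀ t ∈ Ioo t₀ T, ∀ z : ℝ, ∃ (S : Finset ℕ) (κ : ℕ → ℝ),
      (∀ n ∈ S, n ≤ N ∧ 1 ≤ κ n ∧ Good t₀ u t z ((1/4) ^ n) (κ n)) ∧
      b + Real.log N ≤ ∑ n ∈ S, Real.exp (-(A * κ n ^ 23))) →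
    Regular T u := by
  obtain ⟨A, hA, H⟩ := result
  refine ⟨A, hA, fun T t₀ u p h h0 hT hyp => H T t₀ u p h h0 hT fun b => ?_⟩
  have hE := energy_nonneg (u 0)
  obtain ⟨E, hE'⟩ : ∃ E : ℝ, E = energy (u 0) := ⟨_, rfl⟩
  rw [← hE'] at hE
  have hl2 : 0 < Real.log (2 + E) := Real.log_pos (by linarith)
  have hl4 : 0 < Real.log 4 := Real.log_pos (by norm_num)
  obtain ⟨N, hN, hyp⟩ := hyp (b + Real.log (Real.log (2 + E) + 2 * Real.log 4))
  have hN1 : (1:ℝ) ≤ N := by exact_mod_cast hN
  refine ⟨(1/4) ^ (N + 1), E * 4 ^ (N + 1), by positivity, by positivity, Or.inl ?_, fun t ht z => ?_⟩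
  · rw [← hE', mul_assoc, ← mul_pow]
    norm_num
  · obtain ⟨S, κ, hS, hsum⟩ := hyp t ht z
    refine ⟨S, κ, fun n hn => ⟨?_, (hS n hn).2⟩, ?_⟩
    · have h1 : (1/4 : ℝ) ^ N ≤ (1/4) ^ n := pow_le_pow_of_le_one (by norm_num) (by norm_num) (hS n hn).1
      have h2 : (1/4 : ℝ) ^ (N + 1) = (1/4) ^ N / 4 := by ring
      linarith
    · refine le_trans ?_ hsum
      have h4 : (1 : ℝ) ≤ 4 ^ (N + 1) := one_le_pow₀ (by norm_num)
      have h1 : 2 + E * 4 ^ (N + 1) ≤ (2 + E) * 4 ^ (N + 1) := by nlinarith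
      have h2 : Real.log (2 + E * 4 ^ (N + 1)) ≤ N * (Real.log (2 + E) + 2 * Real.log 4) := by
        calc Real.log (2 + E * 4 ^ (N + 1)) ≤ Real.log ((2 + E) * 4 ^ (N + 1)) := Real.log_le_log (by positivity) h1
          _ = Real.log (2 + E) + (N + 1) * Real.log 4 := by
            rw [Real.log_mul (by positivity) (by positivity), Real.log_pow]
            push_cast
            ring
          _ ≤ _ := by nlinarith
      have h3 : 0 < Real.log (2 + E * 4 ^ (N + 1)) := Real.log_pos (by
        have : 0 ≤ E * 4 ^ (N + 1) := by positivity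
        linarith)
      have h5 : Real.log (Real.log (2 + E * 4 ^ (N + 1))) ≤ Real.log N + Real.log (Real.log (2 + E) + 2 * Real.log 4) := by
        rw [← Real.log_mul (by positivity) (by positivity)]
        exact Real.log_le_log h3 h2
      linarith

/-- Monotonicity of partial sums with terms at most one. -/
theorem partial_two {y : ℕ → ℝ} (h1 : ∀ n, y n ≤ 1) (N : ℕ) :
    ∑ n ∈ Finset.range (N + 1), y n ≤ ∑ n ∈ Finset.range (N - 1), y n + 2 := by
  rcases N with _ | N
  · simp only [Finset.range_one, Finset.sum_singleton, zero_add]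
    have e1 : ∑ n ∈ Finset.range (0 - 1), y n = 0 := by simp
    rw [e1]
    linarith [h1 0]
  · rw [Finset.sum_range_succ, Finset.sum_range_succ, Nat.add_sub_cancel]
    linarith [h1 N, h1 (N + 1)]

/-- If the partial sums of `√x` satisfy the opposite of the condition of `result`, then `x` is summable. -/
theorem summable_of {x y : ℕ → ℝ} {C : ℝ} (hx : ∀ n, 0 ≤ x n) (hC : 0 ≤ C)
    (h : ∀ n, x n ≤ C * (y n * Real.exp (-∑ k ∈ Finset.range (n + 1), y k))) : Summable x := by
  have h1 : ∀ N, ∑ n ∈ Finset.range N, x n ≤ C * (1 - Real.exp (-∑ k ∈ Finset.range N, y k)) := by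
    intro N
    induction N with
    | zero => simp
    | succ N ih =>
      rw [Finset.sum_range_succ]
      have h2 : y N * Real.exp (-∑ k ∈ Finset.range (N + 1), y k) ≤
          Real.exp (-∑ k ∈ Finset.range N, y k) - Real.exp (-∑ k ∈ Finset.range (N + 1), y k) := by
        have e1 : Real.exp (-∑ k ∈ Finset.range N, y k) = Real.exp (y N) * Real.exp (-∑ k ∈ Finset.range (N + 1), y k) := by
          rw [← Real.exp_add, Finset.sum_range_succ]
          congr 1
          ring
        rw [e1]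
        have e2 := Real.add_one_le_exp (y N)
        have e3 := Real.exp_pos (-∑ k ∈ Finset.range (N + 1), y k)
        nlinarith
      have h3 := mul_le_mul_of_nonneg_left h2 hC
      have h4 := h N
      nlinarith
  refine summable_of_sum_range_le (c := C) hx fun N => (h1 N).trans ?_
  have := Real.exp_pos (-∑ k ∈ Finset.range N, y k)
  nlinarith

/-- **An Osgood criterion.** If the scaled energy at the scale `4⁻ⁿ` is at most `κ n` for the numbers `n` of a set `E`, and the sum
of `exp (- B (κ n) ^ 23)` over `E` diverges, then there is no blow-up. -/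
theorem osgood : ∃ B : ℝ, 0 < B ∧ ∀ (T t₀ : ℝ) (u : ℝ → E3 → E3) (p : ℝ → E3 → ℝ),
    IsHInfAxisymNS T u p → 0 ≤ t₀ → t₀ < T → ∀ (E : Set ℕ) (κ : ℕ → ℝ),
    (∀ n ∈ E, BallBound T t₀ u ((1/4) ^ n) (κ n)) → ¬ Summable (E.indicator fun n => Real.exp (-(B * κ n ^ 23))) →
    Regular T u := by
  classical
  obtain ⟨A₀, hA₀, H⟩ := result
  obtain ⟨A, hA⟩ : ∃ A : ℝ, A = max A₀ 1 := ⟨_, rfl⟩
  have hA1 : 1 ≤ A := by rw [hA]; exact le_max_right _ _
  have hAA : A₀ ≤ A := by rw [hA]; exact le_max_left _ _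
  refine ⟨2 * (A * 8 ^ 23), by positivity, fun T t₀ u p h h0 hT E κ hE hdiv => ?_⟩
  by_contra hreg
  refine hdiv ?_
  have hκ0 : ∀ n ∈ E, 0 ≤ κ n := by
    intro n hn
    have h1 := (hE n hn).axis t₀ ⟨le_rfl, hT⟩ 0
    have h2 : 0 ≤ ballEnergy (u t₀) (axp 0) ((1/4) ^ n) := integral_nonneg fun x => by positivity
    exact nonneg_of_mul_nonneg_left (h2.trans h1) (by positivity)
  -- the terms
  obtain ⟨y, hy⟩ : ∃ y : ℕ → ℝ, y = E.indicator fun n => Real.exp (-(A * max 1 (8 * κ n) ^ 23)) := ⟨_, rfl⟩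
  have hy0 : ∀ n, 0 ≤ y n := fun n => by
    rw [hy]
    exact Set.indicator_nonneg (fun _ _ => (Real.exp_pos _).le) n
  have hy1 : ∀ n, y n ≤ 1 := fun n => by
    rw [hy]
    by_cases hn : n ∈ E
    · rw [Set.indicator_of_mem hn, Real.exp_le_one_iff]
      have : 0 ≤ A * max 1 (8 * κ n) ^ 23 := by positivity
      linarith
    · rw [Set.indicator_of_notMem hn]
      norm_num
  -- failure of the condition
  have hb : ∃ b : ℝ, ∀ N ∈ E, ∑ n ∈ Finset.range (N - 1), y n < b + Real.log (Real.log (2 + κ N)) := by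
    by_contra hc
    push Not at hc
    refine hreg (H T t₀ u p h h0 hT fun b => ?_)
    obtain ⟨N, hN, hsum⟩ := hc b
    refine ⟨(1/4) ^ N, κ N, by positivity, hκ0 N hN, Or.inr (hE N hN), fun t ht z => ?_⟩
    refine ⟨((Finset.range (N - 1)).filter (· ∈ E)).map ⟨Nat.succ, Nat.succ_injective⟩, fun m => max 1 (8 * κ (m - 1)), ?_, ?_⟩
    · intro m hm
      rw [Finset.mem_map] at hm
      obtain ⟨n, hn, rfl⟩ := hm
      rw [Finset.mem_filter, Finset.mem_range] at hn
      have hn2 : n + 1 + 1 ≤ N := by omega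
      have e1 : (1/4 : ℝ) ^ (n + 1) = (1/4) ^ n / 4 := by ring
      have e2 : (1/4 : ℝ) ^ N ≤ (1/4) ^ (n + 1 + 1) := pow_le_pow_of_le_one (by norm_num) (by norm_num) hn2
      have e3 : (1/4 : ℝ) ^ (n + 1 + 1) = (1/4) ^ (n + 1) / 4 := by ring
      refine ⟨?_, le_max_left _ _, ?_⟩
      · show 4 * (1/4 : ℝ) ^ N ≤ (1/4) ^ (n + 1)
        linarith
      · show Good t₀ u t z ((1/4) ^ (n + 1)) (max 1 (8 * κ n))
        intro s h1 h2 h3
        have h4 := (hE n hn.2).good h h0 (a := (1/4) ^ (n + 1)) (by positivity) (by rw [e1]; linarith [show (0:ℝ) < (1/4) ^ n by positivity])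
          (by rw [e1]; linarith [show (0:ℝ) < (1/4) ^ n by positivity]) ht.2 z s h1 h2 h3
        refine h4.trans (mul_le_mul_of_nonneg_right ?_ (by positivity))
        rw [max_eq_left (hκ0 n hn.2)]
        exact le_max_right _ _
    · refine hsum.trans ?_
      rw [Finset.sum_map, Finset.sum_filter]
      refine Finset.sum_le_sum fun n _ => ?_
      rw [hy]
      by_cases hn : n ∈ E
      · rw [Set.indicator_of_mem hn, if_pos hn]
        show Real.exp (-(A * max 1 (8 * κ n) ^ 23)) ≤ Real.exp (-(A₀ * max 1 (8 * κ n) ^ 23))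
        refine Real.exp_le_exp.2 (neg_le_neg (mul_le_mul_of_nonneg_right hAA (by positivity)))
      · rw [Set.indicator_of_notMem hn, if_neg hn]
  obtain ⟨b, hb⟩ := hb
  refine summable_of (y := y) (C := Real.exp A * Real.exp (b + 4)) (fun n => Set.indicator_nonneg (fun _ _ => (Real.exp_pos _).le) n)
    (by positivity) fun N => ?_
  by_cases hN : N ∈ E
  · rw [Set.indicator_of_mem hN]
    have hκ := hκ0 N hN
    obtain ⟨w, hw⟩ : ∃ w : ℝ, w = Real.exp (-(A * 8 ^ 23 * κ N ^ 23)) := ⟨_, rfl⟩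
    have e1 : Real.exp (-(2 * (A * 8 ^ 23) * κ N ^ 23)) = w * w := by
      rw [hw, ← Real.exp_add]
      congr 1
      ring
    have hw0 : 0 ≤ w := by rw [hw]; exact (Real.exp_pos _).le
    have h1 : w ≤ Real.exp A * y N := by
      rw [hw, hy, Set.indicator_of_mem hN, ← Real.exp_add]
      refine Real.exp_le_exp.2 ?_
      have h2 : max 1 (8 * κ N) ^ 23 ≤ 1 + 8 ^ 23 * κ N ^ 23 := by
        have h3 : 0 ≤ 8 ^ 23 * κ N ^ 23 := by positivity
        rcases le_total 1 (8 * κ N) with h4 | h4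
        · rw [max_eq_right h4, mul_pow]
          linarith
        · rw [max_eq_left h4]
          linarith
      have h5 := mul_le_mul_of_nonneg_left h2 (show 0 ≤ A by linarith)
      linarith
    have h2 : w ≤ Real.exp (b + 4) * Real.exp (-∑ k ∈ Finset.range (N + 1), y k) := by
      rw [hw, ← Real.exp_add]
      refine Real.exp_le_exp.2 ?_
      have h3 := partial_two hy1 N
      have h4 := hb N hN
      have h5 : Real.log (2 + κ N) ≤ 1 + κ N := by
        have := Real.log_le_sub_one_of_pos (show 0 < 2 + κ N by linarith)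
        linarith
      have h6 : Real.log (Real.log (2 + κ N)) ≤ κ N := by
        have h7 : 0 < Real.log (2 + κ N) := Real.log_pos (by linarith)
        have := Real.log_le_sub_one_of_pos h7
        linarith
      have h8 : κ N - 1 ≤ A * 8 ^ 23 * κ N ^ 23 := by
        have h9 : κ N - 1 ≤ κ N ^ 23 := by
          rcases le_total (κ N) 1 with h10 | h10
          · have : 0 ≤ κ N ^ 23 := by positivity
            linarith
          · have : κ N ≤ κ N ^ 23 := le_self_pow₀ h10 (by norm_num)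
            linarith
        have h10 : 1 ≤ A * 8 ^ 23 := by
          have : (1:ℝ) ≤ 8 ^ 23 := by norm_num
          nlinarith
        have h11 : 0 ≤ κ N ^ 23 := by positivity
        nlinarith
      linarith
    rw [e1]
    calc w * w ≤ (Real.exp A * y N) * (Real.exp (b + 4) * Real.exp (-∑ k ∈ Finset.range (N + 1), y k)) :=
          mul_le_mul h1 h2 hw0 (mul_nonneg (Real.exp_pos _).le (hy0 N))
      _ = _ := by ring
  · rw [Set.indicator_of_notMem hN]
    have := hy0 N
    positivity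

end Pool.Agent.Results.MP_09540e_an.TypeOneScales
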